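import Pool.Agent.Helper6.NX.GoalsD

/-!
# Project NX (MP_75608d_al), packet E1: the moments improve
-/

namespace Pool.Agent.Helper39.NX

open Equiv Finset Pool.Agent.Helper15.An Pool.Agent.Helper6.NX

/-- the partial sums of binomial coefficients -/
lemma B_le (n m : ℕ) (hn : 1 ≤ n) (hmn : m ≤ n) :
    (∑ j ∈ range (m + 1), (n.choose j : ℝ)) * ((m : ℝ) / n) ^ m ≤ Real.exp m := by
  have hn0 : (0 : ℝ) < n := by exact_mod_cast hn
  have hx0 : 0 ≤ (m : ℝ) / n := by positivity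
  have hx1 : (m : ℝ) / n ≤ 1 := by
    rw [div_le_one hn0]
    exact_mod_cast hmn
  rw [Finset.sum_mul]
  calc ∑ j ∈ range (m + 1), (n.choose j : ℝ) * ((m : ℝ) / n) ^ m
      ≤ ∑ j ∈ range (m + 1), (n.choose j : ℝ) * ((m : ℝ) / n) ^ j := by
        refine Finset.sum_le_sum fun j hj => ?_
        apply mul_le_mul_of_nonneg_left _ (Nat.cast_nonneg _)
        exact pow_le_pow_of_le_one hx0 hx1 (by rw [Finset.mem_range] at hj; omega)
    _ ≤ ∑ j ∈ range (n + 1), (n.choose j : ℝ) * ((m : ℝ) / n) ^ j := by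
        apply Finset.sum_le_sum_of_subset_of_nonneg
        · exact Finset.range_subset_range.2 (by omega)
        · intro j _ _
          positivity
    _ = ((m : ℝ) / n + 1) ^ n := by
        rw [add_pow]
        refine Finset.sum_congr rfl fun j _ => ?_
        rw [one_pow, mul_one, mul_comm]
    _ ≤ (Real.exp ((m : ℝ) / n)) ^ n :=
        pow_le_pow_left₀ (by positivity) (Real.add_one_le_exp _) _
    _ = Real.exp m := by
        rw [← Real.exp_nat_mul]
        congr 1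
        field_simp

/-- the second factor -/
lemma fac2 (n f d : ℕ) (hn : 1 ≤ n) (hf : f ≤ n) (hd : d ≤ f) :
    ((f : ℝ) / n) ^ d * ((∑ j ∈ range (d / 2 + 1), (n.choose j : ℝ)) * (n : ℝ) ^ (d / 2)) ≤
      Real.exp (2 * f) * (n : ℝ) ^ ((d : ℝ) / 2) := by
  have hn0 : (0 : ℝ) < n := by exact_mod_cast hn
  have hn1 : (1 : ℝ) ≤ n := by exact_mod_cast hn
  have hx0 : 0 ≤ (f : ℝ) / n := by positivity
  have hx1 : (f : ℝ) / n ≤ 1 := by
    rw [div_le_one hn0]
    exact_mod_cast hf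
  have hm2 : 2 * (d / 2) ≤ d := by omega
  have hmr : ((d / 2 : ℕ) : ℝ) ≤ (d : ℝ) / 2 := by
    rw [le_div_iff₀ (by norm_num)]
    have : d / 2 * 2 ≤ d := by omega
    exact_mod_cast this
  have hmn : d / 2 ≤ n := by omega
  have hmf : d / 2 ≤ f := by omega
  set m := d / 2 with hm
  have hnd : (1 : ℝ) ≤ (n : ℝ) ^ ((d : ℝ) / 2) := Real.one_le_rpow hn1 (by positivity)
  rcases Nat.eq_zero_or_pos m with h0 | h0
  · rw [h0]
    simp only [zero_add, Finset.range_one, Finset.sum_singleton, Nat.choose_zero_right,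
      Nat.cast_one, pow_zero, mul_one]
    calc ((f : ℝ) / n) ^ d ≤ 1 := pow_le_one₀ hx0 hx1
      _ = 1 * 1 := (one_mul 1).symm
      _ ≤ Real.exp (2 * f) * (n : ℝ) ^ ((d : ℝ) / 2) := by
          apply mul_le_mul _ hnd zero_le_one (Real.exp_pos _).le
          exact Real.one_le_exp (by positivity)
  · have hm0 : (0 : ℝ) < m := by exact_mod_cast h0
    have h1 : ((f : ℝ) / n) ^ d ≤ ((f : ℝ) / n) ^ (2 * m) := pow_le_pow_of_le_one hx0 hx1 hm2
    have h2 := B_le n m hn hmn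
    set B := ∑ j ∈ range (m + 1), (n.choose j : ℝ) with hB
    have hB0 : 0 ≤ B := Finset.sum_nonneg fun j _ => Nat.cast_nonneg _
    have h3 : ((f : ℝ) / n) ^ (2 * m) * (B * (n : ℝ) ^ m) =
        (B * ((m : ℝ) / n) ^ m) * ((f : ℝ) ^ m * ((f : ℝ) ^ m / (m : ℝ) ^ m)) := by
      rw [div_pow, div_pow, two_mul, pow_add, pow_add]
      field_simp
    have h4 : (f : ℝ) ^ m / (m : ℝ) ^ m ≤ Real.exp f := by
      refine le_trans ?_ (Real.pow_div_factorial_le_exp (f : ℝ) (Nat.cast_nonneg _) m)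
      apply div_le_div_of_nonneg_left (by positivity) (by positivity)
      exact_mod_cast Nat.factorial_le_pow m
    have h5 : (f : ℝ) ^ m ≤ (n : ℝ) ^ ((d : ℝ) / 2) := by
      calc (f : ℝ) ^ m ≤ (n : ℝ) ^ m :=
            pow_le_pow_left₀ (Nat.cast_nonneg _) (by exact_mod_cast hf) _
        _ = (n : ℝ) ^ ((m : ℕ) : ℝ) := (Real.rpow_natCast _ _).symm
        _ ≤ (n : ℝ) ^ ((d : ℝ) / 2) := Real.rpow_le_rpow_of_exponent_le hn1 hmr
    have h6 : Real.exp (m : ℝ) ≤ Real.exp f := Real.exp_le_exp.2 (by exact_mod_cast hmf)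
    calc ((f : ℝ) / n) ^ d * (B * (n : ℝ) ^ m)
        ≤ ((f : ℝ) / n) ^ (2 * m) * (B * (n : ℝ) ^ m) :=
          mul_le_mul_of_nonneg_right h1 (by positivity)
      _ = (B * ((m : ℝ) / n) ^ m) * ((f : ℝ) ^ m * ((f : ℝ) ^ m / (m : ℝ) ^ m)) := h3
      _ ≤ Real.exp f * ((n : ℝ) ^ ((d : ℝ) / 2) * Real.exp f) := by
          apply mul_le_mul (h2.trans h6) _ (by positivity) (Real.exp_pos _).le
          exact mul_le_mul h5 h4 (by positivity) (by positivity)
      _ = Real.exp (2 * f) * (n : ℝ) ^ ((d : ℝ) / 2) := by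
          rw [two_mul, Real.exp_add]
          ring

/-- exchange of the sums -/
lemma reorg {G : Type} [Fintype G] (f : ℕ) (e : ℝ) (κ : G → ℝ) (a : ℕ → ℝ) (C D : G → ℕ → ℝ)
    (W : ℕ → ℕ → ℝ) :
    ∑ g, ∑ h, κ g * κ h * (e * ∑ s ∈ range (f + 1), a s * ∑ c ∈ range (s + 1),
      C g c * D h c * W s c) =
    e * ∑ s ∈ range (f + 1), ∑ c ∈ range (s + 1),
      a s * W s c * ((∑ g, κ g * C g c) * (∑ h, κ h * D h c)) := by
  have h1 : ∀ g h, κ g * κ h * (e * ∑ s ∈ range (f + 1), a s * ∑ c ∈ range (s + 1),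
      C g c * D h c * W s c) = ∑ s ∈ range (f + 1), ∑ c ∈ range (s + 1),
      e * (a s * W s c * ((κ g * C g c) * (κ h * D h c))) := by
    intro g h
    rw [Finset.mul_sum, Finset.mul_sum]
    refine Finset.sum_congr rfl fun s _ => ?_
    rw [Finset.mul_sum, Finset.mul_sum, Finset.mul_sum]
    refine Finset.sum_congr rfl fun c _ => ?_
    ring
  have h2 : ∑ g, ∑ h, κ g * κ h * (e * ∑ s ∈ range (f + 1), a s * ∑ c ∈ range (s + 1),
      C g c * D h c * W s c) = ∑ g, ∑ h, ∑ s ∈ range (f + 1), ∑ c ∈ range (s + 1),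
      e * (a s * W s c * ((κ g * C g c) * (κ h * D h c))) :=
    Finset.sum_congr rfl fun g _ => Finset.sum_congr rfl fun h _ => h1 g h
  rw [h2, Finset.mul_sum]
  have h3 : ∑ g, ∑ h, ∑ s ∈ range (f + 1), ∑ c ∈ range (s + 1),
      e * (a s * W s c * ((κ g * C g c) * (κ h * D h c))) =
      ∑ s ∈ range (f + 1), ∑ g, ∑ h, ∑ c ∈ range (s + 1),
      e * (a s * W s c * ((κ g * C g c) * (κ h * D h c))) :=
    (Finset.sum_congr rfl fun g _ => Finset.sum_comm).trans Finset.sum_comm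
  rw [h3]
  refine Finset.sum_congr rfl fun s _ => ?_
  rw [Finset.mul_sum]
  have h4 : ∑ g, ∑ h, ∑ c ∈ range (s + 1),
      e * (a s * W s c * ((κ g * C g c) * (κ h * D h c))) =
      ∑ c ∈ range (s + 1), ∑ g, ∑ h,
      e * (a s * W s c * ((κ g * C g c) * (κ h * D h c))) :=
    (Finset.sum_congr rfl fun g _ => Finset.sum_comm).trans Finset.sum_comm
  rw [h4]
  refine Finset.sum_congr rfl fun c _ => ?_
  rw [Finset.sum_mul_sum, Finset.mul_sum, Finset.mul_sum]
  refine Finset.sum_congr rfl fun g _ => ?_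
  rw [Finset.mul_sum, Finset.mul_sum]

/-- the number of pairs -/
lemma pow_bound (f : ℕ) (hf : 1 ≤ f) : 4 * ((f : ℝ) + 1) ^ 2 ≤ Real.exp (3 * f) := by
  have h1 : ∀ t : ℕ, 4 * (((t + 1 : ℕ) : ℝ) + 1) ^ 2 ≤ 16 ^ (t + 1) := by
    intro t
    induction t with
    | zero => norm_num
    | succ t ih =>
      rw [pow_succ (16 : ℝ)]
      push_cast at ih ⊢
      have : (0 : ℝ) ≤ t := Nat.cast_nonneg t
      nlinarith
  obtain ⟨t, rfl⟩ : ∃ t, f = t + 1 := ⟨f - 1, by omega⟩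
  refine (h1 t).trans ?_
  have h2 : (16 : ℝ) ≤ Real.exp 3 := by
    have h3 : (2.7182818283 : ℝ) < Real.exp 1 := Real.exp_one_gt_d9
    have h4 : Real.exp 3 = Real.exp 1 ^ 3 := by
      rw [← Real.exp_nat_mul]
      norm_num
    rw [h4]
    calc (16 : ℝ) ≤ 2.7182818283 ^ 3 := by norm_num
      _ ≤ Real.exp 1 ^ 3 := pow_le_pow_left₀ (by norm_num) h3.le _
  calc (16 : ℝ) ^ (t + 1) ≤ Real.exp 3 ^ (t + 1) := pow_le_pow_left₀ (by norm_num) h2 _
    _ = Real.exp (3 * ((t + 1 : ℕ) : ℝ)) := by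
        rw [← Real.exp_nat_mul]
        congr 1
        ring

/-- the first factor -/
lemma fac1 (n f f₀ c : ℕ) (M ξ E : ℝ) (hn : 1 ≤ n) (hf : f ≤ n) (hM0 : 0 ≤ M)
    (hE1 : 1 - 2 * ξ ≤ E) (hE2 : 0 ≤ E) (h1 : c < f₀ → M ≤ 2)
    (h2 : f₀ ≤ c → M ≤ (n : ℝ) ^ ((1 - ξ) * c)) :
    ((f : ℝ) / n) ^ c * (M ^ 2 / c.factorial) ≤ 4 * Real.exp f * (n : ℝ) ^ (E * c) := by
  have hn0 : (0 : ℝ) < n := by exact_mod_cast hn
  have hn1 : (1 : ℝ) ≤ n := by exact_mod_cast hn
  have hx0 : 0 ≤ (f : ℝ) / n := by positivity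
  have hx1 : (f : ℝ) / n ≤ 1 := by
    rw [div_le_one hn0]
    exact_mod_cast hf
  have he1 : 1 ≤ Real.exp (f : ℝ) := Real.one_le_exp (Nat.cast_nonneg _)
  have hfac : (1 : ℝ) ≤ (c.factorial : ℝ) := by exact_mod_cast Nat.succ_le_of_lt c.factorial_pos
  rcases lt_or_ge c f₀ with hc0 | hc0
  · have h3 := h1 hc0
    have h4 : M ^ 2 / (c.factorial : ℝ) ≤ 4 := by
      rw [div_le_iff₀ (by positivity)]
      nlinarith
    have h5 : ((f : ℝ) / n) ^ c ≤ 1 := pow_le_one₀ hx0 hx1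
    have h6 : (1 : ℝ) ≤ (n : ℝ) ^ (E * c) := Real.one_le_rpow hn1 (by positivity)
    calc ((f : ℝ) / n) ^ c * (M ^ 2 / c.factorial) ≤ 1 * 4 :=
          mul_le_mul h5 h4 (by positivity) zero_le_one
      _ = 4 * 1 * 1 := by norm_num
      _ ≤ 4 * Real.exp f * (n : ℝ) ^ (E * c) := by gcongr
  · have h3 := h2 hc0
    have h4 : M ^ 2 ≤ (n : ℝ) ^ ((2 * (1 - ξ)) * c) := by
      calc M ^ 2 ≤ ((n : ℝ) ^ ((1 - ξ) * c)) ^ 2 := pow_le_pow_left₀ hM0 h3 _
        _ = (n : ℝ) ^ ((2 * (1 - ξ)) * c) := by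
            rw [← Real.rpow_natCast, ← Real.rpow_mul hn0.le]
            congr 1
            push_cast
            ring
    have h5 : (f : ℝ) ^ c / c.factorial ≤ Real.exp f :=
      Real.pow_div_factorial_le_exp (f : ℝ) (Nat.cast_nonneg _) c
    have h6 : (n : ℝ) ^ ((2 * (1 - ξ)) * c) / (n : ℝ) ^ c ≤ (n : ℝ) ^ (E * c) := by
      rw [← Real.rpow_natCast, ← Real.rpow_sub hn0]
      apply Real.rpow_le_rpow_of_exponent_le hn1
      have : (0 : ℝ) ≤ c := Nat.cast_nonneg c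
      nlinarith
    calc ((f : ℝ) / n) ^ c * (M ^ 2 / c.factorial)
        = ((f : ℝ) ^ c / c.factorial) * (M ^ 2 / (n : ℝ) ^ c) := by
          rw [div_pow]
          ring
      _ ≤ Real.exp f * ((n : ℝ) ^ ((2 * (1 - ξ)) * c) / (n : ℝ) ^ c) := by gcongr
      _ ≤ Real.exp f * (n : ℝ) ^ (E * c) := by gcongr
      _ ≤ 4 * Real.exp f * (n : ℝ) ^ (E * c) := by
          have : 0 ≤ Real.exp f * (n : ℝ) ^ (E * c) := by positivity
          linarith

theorem thmE1 (hmx : S_MX) (hpairb : S_PAIRB) (his1 : S_IS1) : S_E1 := by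
  intro n f₀ κ ξ hn hκ hξ hlow hhigh f hf
  have hn0 : (0 : ℝ) < n := by exact_mod_cast hn
  have hn1 : (1 : ℝ) ≤ n := by exact_mod_cast hn
  obtain ⟨hm1, -, -, -, hm5⟩ := hmx n κ κ hκ hκ
  rcases Nat.eq_zero_or_pos f with h0 | h0
  · subst h0
    unfold mom
    simp only [Nat.descFactorial_zero, Nat.cast_one, mul_one, Nat.cast_zero, mul_zero,
      Real.exp_zero, Real.rpow_zero]
    exact hm1.2.le
  set E : ℝ := max (1 - 2 * ξ) (1 / 2) with hE
  have hE1 : 1 - 2 * ξ ≤ E := le_max_left _ _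
  have hE2 : 1 / 2 ≤ E := le_max_right _ _
  have hE0 : 0 ≤ E := by linarith
  have hmom0 : ∀ c, 0 ≤ mom κ c := fun c =>
    Finset.sum_nonneg fun g _ => mul_nonneg (hκ.1 g) (Nat.cast_nonneg _)
  set a : ℕ → ℝ := fun s => ((f : ℝ) / n) ^ s with ha
  set C : Perm (Fin n) → ℕ → ℝ := fun g c => ((fixc g).choose c : ℝ) with hC
  set D : Perm (Fin n) → ℕ → ℝ := fun g c => ((fixc g).descFactorial c : ℝ) with hD
  set W : ℕ → ℕ → ℝ := fun s c =>
    (∑ j ∈ Finset.range ((s - c) / 2 + 1), (n.choose j : ℝ)) * (n : ℝ) ^ ((s - c) / 2) with hW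
  have hCD : ∀ c, ∑ g, κ g * C g c = mom κ c / c.factorial := by
    intro c
    unfold mom
    rw [Finset.sum_div]
    refine Finset.sum_congr rfl fun g _ => ?_
    have : ((fixc g).descFactorial c : ℝ) = (c.factorial : ℝ) * ((fixc g).choose c : ℝ) := by
      exact_mod_cast Nat.descFactorial_eq_factorial_mul_choose (fixc g) c
    rw [this]
    have hc0 : (c.factorial : ℝ) ≠ 0 := by exact_mod_cast c.factorial_ne_zero
    simp only [hC]
    field_simp
  have hDD : ∀ c, ∑ g, κ g * D g c = mom κ c := fun c => rfl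
  have step1 : mom (mixc κ κ) f ≤ ∑ g, ∑ h, κ g * κ h * (Real.exp (2 * f) *
      ∑ s ∈ range (f + 1), a s * ∑ c ∈ range (s + 1), C g c * D h c * W s c) := by
    unfold mom
    rw [hm5 (fun g => ((fixc g).descFactorial f : ℝ))]
    refine Finset.sum_le_sum fun g _ => Finset.sum_le_sum fun h _ => ?_
    apply mul_le_mul_of_nonneg_left _ (mul_nonneg (hκ.1 g) (hκ.1 h))
    refine (hpairb n f g h hf).trans ?_
    apply mul_le_mul_of_nonneg_left _ (Real.exp_pos _).le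
    refine Finset.sum_le_sum fun s _ => ?_
    apply mul_le_mul_of_nonneg_left _ (by positivity)
    exact his1 n s g h hn
  rw [reorg] at step1
  refine step1.trans ?_
  have hterm : ∀ s ∈ range (f + 1), ∀ c ∈ range (s + 1),
      a s * W s c * ((∑ g, κ g * C g c) * (∑ h, κ h * D h c)) ≤
      4 * Real.exp (3 * f) * (n : ℝ) ^ (E * f) := by
    intro s hs c hc
    rw [Finset.mem_range] at hs hc
    rw [hCD, hDD]
    have hsc : s = c + (s - c) := by omega
    have h1 : a s * W s c * (mom κ c / c.factorial * mom κ c) =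
        (((f : ℝ) / n) ^ c * (mom κ c ^ 2 / c.factorial)) *
          (((f : ℝ) / n) ^ (s - c) * W s c) := by
      simp only [ha]
      conv_lhs => rw [hsc, pow_add]
      simp only [← hsc]
      ring
    rw [h1]
    have h2 := fac1 n f f₀ c (mom κ c) ξ E hn hf (hmom0 c) hE1 hE0 (hlow c)
      (fun h => hhigh c h (by omega))
    have h3 := fac2 n f (s - c) hn hf (by omega)
    have h4 : (n : ℝ) ^ (E * c) * (n : ℝ) ^ (((s - c : ℕ) : ℝ) / 2) ≤ (n : ℝ) ^ (E * f) := by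
      rw [← Real.rpow_add hn0]
      apply Real.rpow_le_rpow_of_exponent_le hn1
      have h5 : (c : ℝ) + ((s - c : ℕ) : ℝ) ≤ f := by
        have : c + (s - c) ≤ f := by omega
        exact_mod_cast this
      have h6 : (0 : ℝ) ≤ ((s - c : ℕ) : ℝ) := Nat.cast_nonneg _
      nlinarith
    calc (((f : ℝ) / n) ^ c * (mom κ c ^ 2 / c.factorial)) *
          (((f : ℝ) / n) ^ (s - c) * W s c)
        ≤ (4 * Real.exp f * (n : ℝ) ^ (E * c)) *
          (Real.exp (2 * f) * (n : ℝ) ^ (((s - c : ℕ) : ℝ) / 2)) := by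
          apply mul_le_mul h2 h3 _ (by positivity)
          have : 0 ≤ W s c := by
            simp only [hW]
            positivity
          positivity
      _ = 4 * (Real.exp f * Real.exp (2 * f)) *
          ((n : ℝ) ^ (E * c) * (n : ℝ) ^ (((s - c : ℕ) : ℝ) / 2)) := by ring
      _ ≤ 4 * Real.exp (3 * f) * (n : ℝ) ^ (E * f) := by
          rw [← Real.exp_add, show (f : ℝ) + 2 * f = 3 * f by ring]
          gcongr
  have hpos : 0 ≤ 4 * Real.exp (3 * f) * (n : ℝ) ^ (E * f) := by positivity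
  have hsum : ∑ s ∈ range (f + 1), ∑ c ∈ range (s + 1),
      a s * W s c * ((∑ g, κ g * C g c) * (∑ h, κ h * D h c)) ≤
      ((f : ℝ) + 1) * (((f : ℝ) + 1) * (4 * Real.exp (3 * f) * (n : ℝ) ^ (E * f))) := by
    have h1 : ∀ s ∈ range (f + 1), ∑ c ∈ range (s + 1),
        a s * W s c * ((∑ g, κ g * C g c) * (∑ h, κ h * D h c)) ≤
        ((f : ℝ) + 1) * (4 * Real.exp (3 * f) * (n : ℝ) ^ (E * f)) := by
      intro s hs
      have h2 := Finset.sum_le_card_nsmul (range (s + 1)) _ _ (hterm s hs)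
      rw [Finset.card_range, nsmul_eq_mul] at h2
      refine h2.trans (mul_le_mul_of_nonneg_right ?_ hpos)
      rw [Finset.mem_range] at hs
      have : s + 1 ≤ f + 1 := by omega
      exact_mod_cast this
    have h3 := Finset.sum_le_card_nsmul (range (f + 1)) _ _ h1
    rw [Finset.card_range, nsmul_eq_mul] at h3
    push_cast at h3
    exact h3
  calc Real.exp (2 * f) * ∑ s ∈ range (f + 1), ∑ c ∈ range (s + 1),
        a s * W s c * ((∑ g, κ g * C g c) * (∑ h, κ h * D h c))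
      ≤ Real.exp (2 * f) *
        (((f : ℝ) + 1) * (((f : ℝ) + 1) * (4 * Real.exp (3 * f) * (n : ℝ) ^ (E * f)))) :=
        mul_le_mul_of_nonneg_left hsum (Real.exp_pos _).le
    _ = (4 * ((f : ℝ) + 1) ^ 2) * (Real.exp (2 * f) * Real.exp (3 * f)) * (n : ℝ) ^ (E * f) := by
        ring
    _ ≤ Real.exp (3 * f) * (Real.exp (2 * f) * Real.exp (3 * f)) * (n : ℝ) ^ (E * f) := by
        have := pow_bound f h0
        gcongr
    _ = Real.exp (8 * f) * (n : ℝ) ^ (E * f) := by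
        rw [← Real.exp_add, ← Real.exp_add]
        congr 2
        ring

end Pool.Agent.Helper39.NX
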